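import Mathlib
import Pool.Agent.Helper18.RL.Goals

set_option autoImplicit false

/-!
PROJECT RL, packet RL-CUT: no cut vertex in a minimal violating set.
-/

namespace Pool.Agent.Helper78.RL

open Finset Pool.Agent.Helper37.RG3 Pool.Agent.Helper18.RL

theorem gcut : G_CUT := by
  intro V _ _ U X K L p w r hR hXU hodd hX hpK hpL hKL hKn hLn hzero hmin
  classical
  set C := Xᶜ with hC
  have hpC : p ∉ C := by rw [hC, mem_compl, hX]; simp
  have hKX : K ⊆ X := by rw [hX]; exact subset_union_left.trans (subset_insert _ _)
  have hLX : L ⊆ X := by rw [hX]; exact subset_union_right.trans (subset_insert _ _)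
  have hKC : Disjoint K C := by
    rw [hC]; exact disjoint_compl_right.mono_left hKX
  have hLC : Disjoint L C := by
    rw [hC]; exact disjoint_compl_right.mono_left hLX
  have hpX : p ∈ X := by rw [hX]; simp
  have hcov : ∀ v, v ∈ C ∨ v = p ∨ v ∈ K ∨ v ∈ L := by
    intro v
    by_cases hv : v ∈ X
    · right
      rw [hX] at hv
      simpa using hv
    · left
      rw [hC, mem_compl]
      exact hv
  have hcard : X.card = K.card + L.card + 1 := by
    rw [hX, card_insert_of_notMem (by simp [hpK, hpL]), card_union_of_disjoint hKL]
  -- the parts
  have hKL0 : bt w K L = 0 := (bt_eq_zero w).2 hzero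
  have hLK0 : bt w L K = 0 := by rw [bt_comm w hR.symm]; exact hKL0
  have hsK : bt w K {p} = bt w {p} K := bt_comm w hR.symm _ _
  have hsL : bt w L {p} = bt w {p} L := bt_comm w hR.symm _ _
  have hpK' : Disjoint ({p} : Finset V) K := by simpa using hpK
  have hpL' : Disjoint ({p} : Finset V) L := by simpa using hpL
  have hpC' : Disjoint ({p} : Finset V) C := by simpa using hpC
  have hdeg : bt w {p} K + bt w {p} L + bt w {p} C = r := by
    have h1 : bt w {p} (univ : Finset V) = r := by
      rw [bt_singleton_left]
      exact hR.deg p (hXU hpX)
    have h2 : (univ : Finset V) = {p} ∪ (K ∪ (L ∪ C)) := by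
      ext v
      have := hcov v
      simp only [mem_univ, mem_union, mem_singleton, true_iff]
      tauto
    rw [h2, bt_union_right w {p} (by
        rw [disjoint_union_right, disjoint_union_right]
        exact ⟨hpK', hpL', hpC'⟩),
      bt_union_right w {p} (by
        rw [disjoint_union_right]
        exact ⟨hKL, hKC⟩),
      bt_union_right w {p} hLC, bt_pair, hR.irr] at h1
    omega
  have hctX : ct w X = bt w {p} C + (bt w K C + bt w L C) := by
    unfold ct
    rw [← hC]
    conv_lhs => rw [hX]
    rw [insert_eq, bt_union_left w (by
        rw [disjoint_union_right]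
        exact ⟨hpK', hpL'⟩), bt_union_left w hKL]
  rcases Nat.even_or_odd K.card with hKe | hKo
  · -- even case
    have hLe : Even L.card := by
      rw [hcard] at hodd
      rcases hKe with ⟨a, ha⟩
      rcases hodd with ⟨b, hb⟩
      exact ⟨b - a, by omega⟩
    have hA := hmin (insert p K) (by
        intro v hv
        rcases mem_insert.mp hv with h | h
        · exact h ▸ hpX
        · exact hKX h) (by
        intro h
        obtain ⟨l, hl⟩ := hLn
        have : l ∈ insert p K := by rw [h]; exact hLX hl
        rcases mem_insert.mp this with h' | h'
        · exact hpL (h' ▸ hl)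
        · exact disjoint_left.mp hKL h' hl) (by
        rw [card_insert_of_notMem hpK]
        exact hKe.add_one)
    have hB := hmin (insert p L) (by
        intro v hv
        rcases mem_insert.mp hv with h | h
        · exact h ▸ hpX
        · exact hLX h) (by
        intro h
        obtain ⟨l, hl⟩ := hKn
        have : l ∈ insert p L := by rw [h]; exact hKX hl
        rcases mem_insert.mp this with h' | h'
        · exact hpK (h' ▸ hl)
        · exact disjoint_left.mp hKL hl h') (by
        rw [card_insert_of_notMem hpL]
        exact hLe.add_one)
    have hcA : (insert p K)ᶜ = L ∪ C := by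
      ext v
      have h1 := hcov v
      rw [mem_compl, mem_insert, mem_union]
      constructor
      · intro h
        tauto
      · rintro (h | h)
        · rintro (h' | h')
          · exact hpL (h' ▸ h)
          · exact disjoint_left.mp hKL h' h
        · rintro (h' | h')
          · exact hpC (h' ▸ h)
          · exact disjoint_left.mp hKC h' h
    have hcB : (insert p L)ᶜ = K ∪ C := by
      ext v
      have h1 := hcov v
      rw [mem_compl, mem_insert, mem_union]
      constructor
      · intro h
        tauto
      · rintro (h | h)
        · rintro (h' | h')
          · exact hpK (h' ▸ h)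
          · exact disjoint_left.mp hKL h h'
        · rintro (h' | h')
          · exact hpC (h' ▸ h)
          · exact disjoint_left.mp hLC h' h
    have eA : ct w (insert p K) = bt w {p} L + bt w {p} C + (bt w K L + bt w K C) := by
      unfold ct
      rw [hcA, insert_eq, bt_union_left w hpK', bt_union_right w {p} hLC,
        bt_union_right w K hLC]
    have eB : ct w (insert p L) = bt w {p} K + bt w {p} C + (bt w L K + bt w L C) := by
      unfold ct
      rw [hcB, insert_eq, bt_union_left w hpL', bt_union_right w {p} hKC,
        bt_union_right w L hKC]
    omega
  · have hLo : Odd L.card := by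
      rw [hcard] at hodd
      rcases hKo with ⟨a, ha⟩
      rcases hodd with ⟨b, hb⟩
      exact ⟨b - a - 1, by omega⟩
    have hA := hmin K hKX (by
        intro h
        exact hpK (h ▸ hpX)) hKo
    have hB := hmin L hLX (by
        intro h
        exact hpL (h ▸ hpX)) hLo
    have hcA : Kᶜ = {p} ∪ (L ∪ C) := by
      ext v
      have h1 := hcov v
      rw [mem_compl, mem_union, mem_union, mem_singleton]
      constructor
      · intro h
        tauto
      · rintro (h | h | h) h'
        · exact hpK (h ▸ h')
        · exact disjoint_left.mp hKL h' h
        · exact disjoint_left.mp hKC h' h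
    have hcB : Lᶜ = {p} ∪ (K ∪ C) := by
      ext v
      have h1 := hcov v
      rw [mem_compl, mem_union, mem_union, mem_singleton]
      constructor
      · intro h
        tauto
      · rintro (h | h | h) h'
        · exact hpL (h ▸ h')
        · exact disjoint_left.mp hKL h h'
        · exact disjoint_left.mp hLC h' h
    have eA : ct w K = bt w K {p} + (bt w K L + bt w K C) := by
      unfold ct
      rw [hcA, bt_union_right w K (by
        rw [disjoint_union_right]
        exact ⟨hpL', hpC'⟩), bt_union_right w K hLC]
    have eB : ct w L = bt w L {p} + (bt w L K + bt w L C) := by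
      unfold ct
      rw [hcB, bt_union_right w L (by
        rw [disjoint_union_right]
        exact ⟨hpK', hpC'⟩), bt_union_right w L hKC]
    omega

end Pool.Agent.Helper78.RL
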